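import Mathlib

/-!
# Kissing configurations and jamming (MP_585e0c_gt)
-/

set_option autoImplicit false

namespace Pool.Agent.H29Z.Jam

/-- A kissing configuration in `ℝⁿ`: a finite set of unit vectors with pairwise inner products
at most `1/2`. -/
def IsKissing {n : ℕ} (C : Finset (EuclideanSpace ℝ (Fin n))) : Prop :=
  (∀ x ∈ C, ‖x‖ = 1) ∧ ∀ x ∈ C, ∀ y ∈ C, x ≠ y → inner ℝ x y ≤ 1 / 2

/-- `C` is jammed: every continuous motion `t ↦ γ x t` (`t ∈ [0,1]`, one path for each point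
`x ∈ C`) that starts at `C`, stays on the unit sphere and keeps all pairwise inner products at most
`1/2` is a rigid motion: for each `t` there is an orthogonal map `A` with `γ x t = A x` for all
`x ∈ C`. -/
def IsJammed {n : ℕ} (C : Finset (EuclideanSpace ℝ (Fin n))) : Prop :=
  ∀ γ : EuclideanSpace ℝ (Fin n) → ℝ → EuclideanSpace ℝ (Fin n),
    (∀ x ∈ C, ContinuousOn (γ x) (Set.Icc 0 1)) →
    (∀ x ∈ C, γ x 0 = x) →
    (∀ x ∈ C, ∀ t ∈ Set.Icc (0 : ℝ) 1, ‖γ x t‖ = 1) →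
    (∀ x ∈ C, ∀ y ∈ C, x ≠ y → ∀ t ∈ Set.Icc (0 : ℝ) 1, inner ℝ (γ x t) (γ y t) ≤ 1 / 2) →
    ∀ t ∈ Set.Icc (0 : ℝ) 1,
      ∃ A : EuclideanSpace ℝ (Fin n) ≃ₗᵢ[ℝ] EuclideanSpace ℝ (Fin n), ∀ x ∈ C, γ x t = A x

end Pool.Agent.H29Z.Jam
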