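import Mathlib

/-!
# Quantitative first order rigidity of the root system `D_n`, `n ≥ 4`
-/

set_option autoImplicit false

namespace Pool.Agent.H29Z.Jam

variable {ι : Type} [Fintype ι] [DecidableEq ι]

/-- the negative of a signed index -/
def ng (a : ι × Bool) : ι × Bool := (a.1, !a.2)

omit [Fintype ι] [DecidableEq ι] in
@[simp] theorem ng_fst (a : ι × Bool) : (ng a).1 = a.1 := rfl

omit [Fintype ι] [DecidableEq ι] in
@[simp] theorem ng_ng (a : ι × Bool) : ng (ng a) = a := by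
  rcases a with ⟨i, s⟩; simp [ng]

theorem ex3 (h : 4 ≤ Fintype.card ι) (x y z : ι) : ∃ w, w ≠ x ∧ w ≠ y ∧ w ≠ z := by
  have h1 : ({x, y, z} : Finset ι).card < (Finset.univ : Finset ι).card := by
    have := Finset.card_le_three (a := x) (b := y) (c := z)
    rw [Finset.card_univ]; omega
  obtain ⟨w, -, hw⟩ := Finset.exists_mem_notMem_of_card_lt_card h1
  refine ⟨w, ?_⟩
  simpa [not_or] using hw

omit [Fintype ι] [DecidableEq ι] in
theorem eq_or_ng {a c : ι × Bool} (h : c.1 = a.1) : c = a ∨ c = ng a := by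
  rcases a with ⟨i, s⟩; rcases c with ⟨j, t⟩
  simp only at h; subst h
  cases s <;> cases t <;> simp [ng]

section core
variable (T : ι × Bool → ι × Bool → ι × Bool → ℝ) (ε : ℝ)

omit [Fintype ι] [DecidableEq ι] in
theorem core_hex (hsym : ∀ a b c, T a b c = T b a c) (hodd : ∀ a b c, T a b (ng c) = -T a b c)
    (htan : ∀ a b, a.1 ≠ b.1 → |T a b a + T a b b| ≤ ε)
    (hcon : ∀ a b c, a.1 ≠ b.1 → a.1 ≠ c.1 → b.1 ≠ c.1 →
      T a b a + T a b c + T a c a + T a c b ≤ ε)
    (a b c : ι × Bool) (hab : a.1 ≠ b.1) (hac : a.1 ≠ c.1) (hbc : b.1 ≠ c.1) :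
    |T a b a + T a b c + T a c a + T a c b| ≤ 11 * ε := by
  have e1 := hcon a b c hab hac hbc
  have e2 := hcon b a (ng c) hab.symm hbc hac
  have e3 := hcon (ng c) b (ng a) hbc.symm hac.symm hab.symm
  have e4 := hcon (ng a) (ng c) (ng b) hac hab hbc.symm
  have e5 := hcon (ng b) (ng a) c hab.symm hbc hac
  have e6 := hcon c (ng b) a hbc.symm hac.symm hab.symm
  have t1 := abs_le.mp (htan a b hab)
  have t2 := abs_le.mp (htan a c hac)
  have t3 := abs_le.mp (htan b (ng c) hbc)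
  have t4 := abs_le.mp (htan (ng a) (ng c) hac)
  have t5 := abs_le.mp (htan (ng a) (ng b) hab)
  have t6 := abs_le.mp (htan (ng b) c hbc)
  rw [hsym b a, hsym b a] at e2
  rw [hsym (ng c) b, hsym (ng c) b, hsym (ng c) (ng a), hsym (ng c) (ng a)] at e3
  rw [hsym (ng b) (ng a), hsym (ng b) (ng a)] at e5
  rw [hsym c (ng b), hsym c (ng b), hsym c a, hsym c a] at e6
  simp only [hodd] at e1 e2 e3 e4 e5 e6 t1 t2 t3 t4 t5 t6
  have h0 : 0 ≤ ε := by linarith [t1.1, t1.2]
  rw [abs_le]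
  constructor
  · linarith [t1.1, t2.1, t3.1, t4.1, t5.1, t6.1]
  · linarith

omit [Fintype ι] [DecidableEq ι] in
theorem core_T (hsym : ∀ a b c, T a b c = T b a c) (hodd : ∀ a b c, T a b (ng c) = -T a b c)
    (htan : ∀ a b, a.1 ≠ b.1 → |T a b a + T a b b| ≤ ε)
    (hcon : ∀ a b c, a.1 ≠ b.1 → a.1 ≠ c.1 → b.1 ≠ c.1 →
      T a b a + T a b c + T a c a + T a c b ≤ ε)
    (a b c : ι × Bool) (hab : a.1 ≠ b.1) (hac : a.1 ≠ c.1) (hbc : b.1 ≠ c.1) :
    |T a b c - T c a c - T c b c| ≤ 18 * ε := by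
  have e1 := abs_le.mp (core_hex T ε hsym hodd htan hcon a b c hab hac hbc)
  have e2 := abs_le.mp (core_hex T ε hsym hodd htan hcon b a c hab.symm hbc hac)
  have e3 := abs_le.mp (core_hex T ε hsym hodd htan hcon c a b hac.symm hbc.symm hab)
  have t1 := abs_le.mp (htan a b hab)
  have t2 := abs_le.mp (htan a c hac)
  have t3 := abs_le.mp (htan b c hbc)
  rw [hsym b a, hsym b a] at e2
  rw [hsym c a, hsym c a, hsym c b, hsym c b] at e3
  rw [hsym c a, hsym c b]
  rw [abs_le]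
  constructor
  · linarith [e1.1, e1.2, e2.1, e2.2, e3.1, e3.2, t1.1, t1.2, t2.1, t2.2, t3.1, t3.2]
  · linarith [e1.1, e1.2, e2.1, e2.2, e3.1, e3.2, t1.1, t1.2, t2.1, t2.2, t3.1, t3.2]

theorem core_O (h4 : 4 ≤ Fintype.card ι)
    (hsym : ∀ a b c, T a b c = T b a c) (hodd : ∀ a b c, T a b (ng c) = -T a b c)
    (htan : ∀ a b, a.1 ≠ b.1 → |T a b a + T a b b| ≤ ε)
    (hcon : ∀ a b c, a.1 ≠ b.1 → a.1 ≠ c.1 → b.1 ≠ c.1 →
      T a b a + T a b c + T a c a + T a c b ≤ ε)
    (a c : ι × Bool) (hac : a.1 ≠ c.1) :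
    |T c a c + T (ng c) a (ng c)| ≤ 54 * ε := by
  obtain ⟨i, hi1, hi2, -⟩ := ex3 h4 a.1 c.1 c.1
  obtain ⟨j, hj1, hj2, hj3⟩ := ex3 h4 a.1 c.1 i
  have key : ∀ x y : ι × Bool, x.1 ≠ y.1 → x.1 ≠ c.1 → y.1 ≠ c.1 →
      |(T c x c + T (ng c) x (ng c)) + (T c y c + T (ng c) y (ng c))| ≤ 36 * ε := by
    intro x y hxy hxc hyc
    have e1 := abs_le.mp (core_T T ε hsym hodd htan hcon x y c hxy hxc hyc)
    have e2 := abs_le.mp (core_T T ε hsym hodd htan hcon x y (ng c) hxy hxc hyc)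
    rw [hodd x y c] at e2
    rw [abs_le]
    constructor
    · linarith [e1.1, e1.2, e2.1, e2.2]
    · linarith [e1.1, e1.2, e2.1, e2.2]
  have k1 := abs_le.mp (key a (i, true) hi1.symm hac hi2)
  have k2 := abs_le.mp (key (i, true) (j, true) hj3.symm hi2 hj2)
  have k3 := abs_le.mp (key (j, true) a hj1 hj2 hac)
  rw [abs_le]
  constructor
  · linarith [k1.1, k1.2, k2.1, k2.2, k3.1, k3.2]
  · linarith [k1.1, k1.2, k2.1, k2.2, k3.1, k3.2]

/-- The gauge-fixed statement. -/
theorem core_main (h4 : 4 ≤ Fintype.card ι)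
    (hsym : ∀ a b c, T a b c = T b a c) (hodd : ∀ a b c, T a b (ng c) = -T a b c)
    (htan : ∀ a b, a.1 ≠ b.1 → |T a b a + T a b b| ≤ ε)
    (hcon : ∀ a b c, a.1 ≠ b.1 → a.1 ≠ c.1 → b.1 ≠ c.1 →
      T a b a + T a b c + T a c a + T a c b ≤ ε)
    (J : ι → ι) (hJ : ∀ i, J i ≠ i) (M : ι → ι → ℝ) (hM : ∀ i k, M i k = M k i)
    (hg : ∀ i k, T (i, true) (J i, true) (k, true) + T (i, true) (J i, false) (k, true) = M i k) :
    (∀ i k, |M i k| ≤ 93 * ε) ∧ ∀ a b c, a.1 ≠ b.1 → |T a b c| ≤ 424 * ε := by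
  have hO := core_O T ε h4 hsym hodd htan hcon
  have hT := core_T T ε hsym hodd htan hcon
  -- oddness in the second argument
  have hO2 : ∀ a c : ι × Bool, a.1 ≠ c.1 → |T c a c + T c (ng a) c| ≤ 56 * ε := by
    intro a c hac
    have e1 := abs_le.mp (hO c a hac.symm)
    have t1 := abs_le.mp (htan a c hac)
    have t2 := abs_le.mp (htan (ng a) c hac)
    rw [hsym c a, hsym c (ng a), abs_le]
    constructor
    · linarith [e1.1, e1.2, t1.1, t1.2, t2.1, t2.2]
    · linarith [e1.1, e1.2, t1.1, t1.2, t2.1, t2.2]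
  have h0 : 0 ≤ ε := by
    obtain ⟨i⟩ : Nonempty ι := Fintype.card_pos_iff.mp (by omega)
    have := htan (i, true) (J i, true) (hJ i).symm
    exact le_trans (abs_nonneg _) this
  have hoff : ∀ i k, i ≠ k → |M i k - 2 * T (k, true) (i, true) (k, true)| ≤ 92 * ε := by
    intro i k hik
    rw [← hg i k]
    by_cases hk : k = J i
    · subst hk
      have e1 := abs_le.mp (hO (i, true) (J i, true) hik)
      have e2 := hodd (i, true) (J i, false) (J i, true)
      have e3 : ng ((J i, true) : ι × Bool) = (J i, false) := rfl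
      rw [e3] at e1 e2
      rw [hsym (J i, false) (i, true)] at e1
      rw [hsym (J i, true) (i, true)] at e1 ⊢
      rw [abs_le]
      constructor
      · linarith [e1.1, e1.2]
      · linarith [e1.1, e1.2]
    · have e1 := abs_le.mp (hT (i, true) (J i, true) (k, true) (hJ i).symm hik (Ne.symm hk))
      have e2 := abs_le.mp (hT (i, true) (J i, false) (k, true) (hJ i).symm hik (Ne.symm hk))
      have e3 := abs_le.mp (hO2 (J i, true) (k, true) (Ne.symm hk))
      have e4 : ng ((J i, true) : ι × Bool) = (J i, false) := rfl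
      rw [e4] at e3
      rw [abs_le]
      constructor
      · linarith [e1.1, e1.2, e2.1, e2.2, e3.1, e3.2]
      · linarith [e1.1, e1.2, e2.1, e2.2, e3.1, e3.2]
  have hMb : ∀ i k, |M i k| ≤ 93 * ε := by
    intro i k
    by_cases hik : i = k
    · subst hik
      rw [← hg i i]
      have e3 := hO2 (J i, true) (i, true) (hJ i)
      have e4 : ng ((J i, true) : ι × Bool) = (J i, false) := rfl
      rw [e4] at e3
      linarith
    · have e1 := abs_le.mp (hoff i k hik)
      have e2 := abs_le.mp (hoff k i (Ne.symm hik))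
      have t1 := abs_le.mp (htan (i, true) (k, true) hik)
      rw [hM k i] at e2
      rw [hsym (k, true) (i, true)] at e1
      rw [abs_le]
      constructor
      · linarith [e1.1, e1.2, e2.1, e2.2, t1.1, t1.2]
      · linarith [e1.1, e1.2, e2.1, e2.2, t1.1, t1.2]
  have hPpos : ∀ i k, i ≠ k → |T (k, true) (i, true) (k, true)| ≤ 93 * ε := by
    intro i k hik
    have e1 := abs_le.mp (hoff i k hik)
    have e2 := abs_le.mp (hMb i k)
    rw [abs_le]
    constructor
    · linarith [e1.1, e1.2, e2.1, e2.2]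
    · linarith [e1.1, e1.2, e2.1, e2.2]
  have hP1 : ∀ (a : ι × Bool) k, a.1 ≠ k → |T (k, true) a (k, true)| ≤ 149 * ε := by
    rintro ⟨i, s⟩ k hik
    have e1 := abs_le.mp (hPpos i k hik)
    cases s
    · have e2 := abs_le.mp (hO2 (i, true) (k, true) hik)
      have e4 : ng ((i, true) : ι × Bool) = (i, false) := rfl
      rw [e4] at e2
      rw [abs_le]
      constructor
      · linarith [e1.1, e1.2, e2.1, e2.2]
      · linarith [e1.1, e1.2, e2.1, e2.2]
    · rw [abs_le]
      constructor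
      · linarith [e1.1, e1.2]
      · linarith [e1.1, e1.2]
  have hP : ∀ a c : ι × Bool, a.1 ≠ c.1 → |T c a c| ≤ 203 * ε := by
    rintro a ⟨k, s⟩ hik
    have e1 := abs_le.mp (hP1 a k hik)
    cases s
    · have e2 := abs_le.mp (hO a (k, true) hik)
      have e4 : ng ((k, true) : ι × Bool) = (k, false) := rfl
      rw [e4] at e2
      rw [abs_le]
      constructor
      · linarith [e1.1, e1.2, e2.1, e2.2]
      · linarith [e1.1, e1.2, e2.1, e2.2]
    · rw [abs_le]
      constructor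
      · linarith [e1.1, e1.2]
      · linarith [e1.1, e1.2]
  refine ⟨hMb, fun a b c hab => ?_⟩
  by_cases hca : c.1 = a.1
  · have e1 := hP b a hab.symm
    rcases eq_or_ng hca with rfl | rfl
    · linarith
    · rw [hodd, abs_neg]; linarith
  by_cases hcb : c.1 = b.1
  · have e1 := hP a b hab
    rw [hsym a b]
    rcases eq_or_ng hcb with rfl | rfl
    · linarith
    · rw [hodd, abs_neg]; linarith
  have e1 := abs_le.mp (hT a b c hab (Ne.symm hca) (Ne.symm hcb))
  have e2 := abs_le.mp (hP a c (Ne.symm hca))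
  have e3 := abs_le.mp (hP b c (Ne.symm hcb))
  rw [abs_le]
  constructor
  · linarith [e1.1, e1.2, e2.1, e2.2, e3.1, e3.2]
  · linarith [e1.1, e1.2, e2.1, e2.2, e3.1, e3.2]

end core

end Pool.Agent.H29Z.Jam
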