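import Pool.Agent.H29Z.Jam.Prod
import Pool.Agent.H29Z.Jam.Defs

/-!
# A long chain of root systems `D_n`
-/

set_option autoImplicit false

namespace Pool.Agent.H29Z.Jam

open Finset Matrix

variable {k : ℕ}

/-- enumeration of the bit strings -/
noncomputable def en (k : ℕ) : (Fin k → Bool) ≃ Fin (2 ^ k) :=
  Fintype.equivFinOfCardEq (by simp)

/-- normalised root of the system `D_n` in the frame `G` -/
noncomputable def root {ι E : Type} [NormedAddCommGroup E] [InnerProductSpace ℝ E]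
    (G : ι → E) (a b : ι × Bool) : E := hh • (sv G a + sv G b)

theorem root_comm {ι E : Type} [NormedAddCommGroup E] [InnerProductSpace ℝ E]
    (G : ι → E) (a b : ι × Bool) : root G a b = root G b a := by
  unfold root; rw [add_comm]

theorem sg_beq (b c : Bool) : sg (b == c) = sg b * sg c := by
  cases b <;> cases c <;> simp

variable [NeZero k]

/-- the frame after `t` steps -/
noncomputable def Fr (d : ℕ → (Fin k → Bool) → Bool) (t : ℕ) (i : Fin k → Bool) :
    EuclideanSpace ℝ (Fin (2 ^ k)) := WithLp.toLp 2 (fun z => P d 0 t ((en k).symm z) i)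

theorem inner_Fr (d : ℕ → (Fin k → Bool) → Bool) (s l : ℕ) (i j : Fin k → Bool) :
    inner ℝ (Fr d s i) (Fr d (s + l) j) = P d s l i j := by
  have h1 : (P d 0 s)ᵀ * P d 0 (s + l) = P d s l := by
    rw [P_add, ← Matrix.mul_assoc, P_orth, Matrix.one_mul, Nat.zero_add]
  rw [← h1, mul_apply, PiLp.inner_apply, ← Equiv.sum_comp (en k)]
  refine sum_congr rfl fun z _ => ?_
  simp [Fr, mul_comm]

theorem Fr_orth (d : ℕ → (Fin k → Bool) → Bool) (s : ℕ) : Orthonormal ℝ (Fr d s) := by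
  rw [orthonormal_iff_ite]
  intro i j
  have := inner_Fr d s 0 i j
  rw [Nat.add_zero] at this
  rw [this, P, one_apply]

theorem inner_root (d : ℕ → (Fin k → Bool) → Bool) (s l : ℕ) (a b c e : (Fin k → Bool) × Bool) :
    inner ℝ (root (Fr d s) a b) (root (Fr d (s + l)) c e) =
      (sg a.2 * sg c.2 * P d s l a.1 c.1 + sg a.2 * sg e.2 * P d s l a.1 e.1 +
        sg b.2 * sg c.2 * P d s l b.1 c.1 + sg b.2 * sg e.2 * P d s l b.1 e.1) / 2 := by
  simp only [root, sv, inner_add_left, inner_add_right, real_inner_smul_left,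
    real_inner_smul_right, inner_Fr]
  have := hh_mul
  linear_combination (sg a.2 * sg c.2 * P d s l a.1 c.1 + sg a.2 * sg e.2 * P d s l a.1 e.1 +
        sg b.2 * sg c.2 * P d s l b.1 c.1 + sg b.2 * sg e.2 * P d s l b.1 e.1) * this

theorem abs_term (b c : Bool) (x : ℝ) : |sg b * sg c * x| = |x| := by
  rw [abs_mul, abs_mul, abs_sg, abs_sg]; ring

theorem inner_root_far (d : ℕ → (Fin k → Bool) → Bool) (s l : ℕ)
    (h : ∀ x y, |P d s l x y| ≤ 1 / 4) (a b c e : (Fin k → Bool) × Bool) :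
    inner ℝ (root (Fr d s) a b) (root (Fr d (s + l)) c e) ≤ 1 / 2 := by
  rw [inner_root]
  have h1 := (abs_le.mp ((abs_term a.2 c.2 _).le.trans (h a.1 c.1))).2
  have h2 := (abs_le.mp ((abs_term a.2 e.2 _).le.trans (h a.1 e.1))).2
  have h3 := (abs_le.mp ((abs_term b.2 c.2 _).le.trans (h b.1 c.1))).2
  have h4 := (abs_le.mp ((abs_term b.2 e.2 _).le.trans (h b.1 e.1))).2
  linarith

theorem term_cases {p : Prop} [Decidable p] {x v : ℝ} (hv : 0 ≤ v)
    (h : |x| = if p then v else 0) : (p ∧ (x = v ∨ x = -v)) ∨ (¬ p ∧ x = 0) := by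
  split_ifs at h with hp
  · exact Or.inl ⟨hp, (abs_eq hv).mp h⟩
  · exact Or.inr ⟨hp, abs_eq_zero.mp h⟩

theorem inner_root_zero (d : ℕ → (Fin k → Bool) → Bool) (s : ℕ)
    (a b c e : (Fin k → Bool) × Bool) (hab : a.1 ≠ b.1) (hce : c.1 ≠ e.1) :
    inner ℝ (root (Fr d s) a b) (root (Fr d (s + 0)) c e) ≤ 1 / 2 ∨
      inner ℝ (root (Fr d s) a b) (root (Fr d (s + 0)) c e) = 1 := by
  rw [inner_root]
  have h : ∀ (x y : (Fin k → Bool) × Bool),
      |sg x.2 * sg y.2 * P d s 0 x.1 y.1| = if x.1 = y.1 then 1 else 0 := by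
    intro x y
    rw [abs_term, P, one_apply]
    split_ifs <;> simp
  rcases term_cases zero_le_one (h a c) with ⟨p1, h1 | h1⟩ | ⟨p1, h1⟩ <;>
  rcases term_cases zero_le_one (h a e) with ⟨p2, h2 | h2⟩ | ⟨p2, h2⟩ <;>
  rcases term_cases zero_le_one (h b c) with ⟨p3, h3 | h3⟩ | ⟨p3, h3⟩ <;>
  rcases term_cases zero_le_one (h b e) with ⟨p4, h4 | h4⟩ | ⟨p4, h4⟩ <;>
  first
    | exact absurd (p1.symm.trans p2) hce
    | exact absurd (p3.symm.trans p4) hce
    | exact absurd (p1.trans p3.symm) hab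
    | exact absurd (p2.trans p4.symm) hab
    | (rw [h1, h2, h3, h4]; norm_num)

omit [NeZero k] in
theorem Ag_symm [NeZero k] {i l : ℕ} {x y : Fin k → Bool} (h : Ag i l x y) : Ag i l y x :=
  fun u hu => (h u hu).symm

omit [NeZero k] in
theorem Ag_trans [NeZero k] {i l : ℕ} {x y z : Fin k → Bool} (h : Ag i l x y) (h' : Ag i l y z) :
    Ag i l x z := fun u hu => (h u hu).trans (h' u hu)

open Classical in
theorem inner_root_two (hk : 2 ≤ k) (d : ℕ → (Fin k → Bool) → Bool) (s : ℕ)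
    (a b c e : (Fin k → Bool) × Bool) :
    inner ℝ (root (Fr d s) a b) (root (Fr d (s + 2)) c e) ≤ 1 / 2 ∨
      inner ℝ (root (Fr d s) a b) (root (Fr d (s + 2)) c e) = 1 := by
  rw [inner_root]
  have h : ∀ (x y : (Fin k → Bool) × Bool),
      |sg x.2 * sg y.2 * P d s 2 x.1 y.1| = if Ag s 2 x.1 y.1 then 1 / 2 else 0 := by
    intro x y
    rw [abs_term, P_flat d s 2 hk, hh_sq]
  have hv : (0 : ℝ) ≤ 1 / 2 := by norm_num
  rcases term_cases hv (h a c) with ⟨p1, h1 | h1⟩ | ⟨p1, h1⟩ <;>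
  rcases term_cases hv (h a e) with ⟨p2, h2 | h2⟩ | ⟨p2, h2⟩ <;>
  rcases term_cases hv (h b c) with ⟨p3, h3 | h3⟩ | ⟨p3, h3⟩ <;>
  rcases term_cases hv (h b e) with ⟨p4, h4 | h4⟩ | ⟨p4, h4⟩ <;>
  first
    | exact absurd (Ag_trans p3 (Ag_trans (Ag_symm p1) p2)) p4
    | exact absurd (Ag_trans p4 (Ag_trans (Ag_symm p2) p1)) p3
    | exact absurd (Ag_trans p1 (Ag_trans (Ag_symm p3) p4)) p2
    | exact absurd (Ag_trans p2 (Ag_trans (Ag_symm p4) p3)) p1
    | (rw [h1, h2, h3, h4]; norm_num)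

theorem inner_root_self (d : ℕ → (Fin k → Bool) → Bool) (s : ℕ)
    (a b : (Fin k → Bool) × Bool) (hab : a.1 ≠ b.1) :
    inner ℝ (root (Fr d s) a b) (root (Fr d s) a b) = 1 := by
  have := inner_root d s 0 a b a b
  rw [Nat.add_zero] at this
  rw [this]
  simp [P, hab, hab.symm]

theorem norm_root (d : ℕ → (Fin k → Bool) → Bool) (s : ℕ)
    (a b : (Fin k → Bool) × Bool) (hab : a.1 ≠ b.1) : ‖root (Fr d s) a b‖ = 1 := by
  have := inner_root_self d s a b hab
  rw [real_inner_self_eq_norm_sq] at this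
  exact (pow_eq_one_iff_of_nonneg (norm_nonneg _) two_ne_zero).mp this

theorem root_ne (d : ℕ → (Fin k → Bool) → Bool) (s : ℕ)
    (a b c : (Fin k → Bool) × Bool) (hab : a.1 ≠ b.1) (hac : a.1 ≠ c.1) (hbc : b.1 ≠ c.1) :
    root (Fr d s) a b ≠ root (Fr d s) a c := by
  intro h
  have h1 := inner_root_self d s a b hab
  have h2 := inner_root d s 0 a b a c
  rw [Nat.add_zero, ← h, h1] at h2
  simp [P, hab.symm, hac, hbc] at h2

omit [NeZero k] in
theorem update_ne (y : Fin k → Bool) (s : Fin k) :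
    Function.update y s false ≠ Function.update y s true := by
  intro h
  have := congrFun h s
  simp at this

theorem Fr_succ (d : ℕ → (Fin k → Bool) → Bool) (t : ℕ) (y : Fin k → Bool) :
    ∃ a b : (Fin k → Bool) × Bool, a.1 ≠ b.1 ∧ Fr d (t + 1) y = root (Fr d t) a b := by
  refine ⟨(Function.update y (Fin.ofNat k t) false, d t (Function.update y (Fin.ofNat k t) false)),
    (Function.update y (Fin.ofNat k t) true,
      d t (Function.update y (Fin.ofNat k t) true) == !y (Fin.ofNat k t)), update_ne _ _, ?_⟩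
  ext z
  simp only [Fr, root, sv, sg_beq, PiLp.smul_apply, PiLp.add_apply, smul_eq_mul]
  rw [P_succ_apply, Nat.zero_add]
  ring

theorem Fr_pred (d : ℕ → (Fin k → Bool) → Bool) (t : ℕ) (y : Fin k → Bool) :
    ∃ a b : (Fin k → Bool) × Bool, a.1 ≠ b.1 ∧ Fr d t y = root (Fr d (t + 1)) a b := by
  refine ⟨(Function.update y (Fin.ofNat k t) false, d t y),
    (Function.update y (Fin.ofNat k t) true, d t y == !y (Fin.ofNat k t)), update_ne _ _, ?_⟩
  ext z
  simp only [Fr, root, sv, sg_beq, PiLp.smul_apply, PiLp.add_apply, smul_eq_mul]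
  rw [P_pred_apply, Nat.zero_add]
  ring

open Classical in
/-- the configuration: the union of the root systems in the frames `0, 2, 4, …` -/
noncomputable def conf (d : ℕ → (Fin k → Bool) → Bool) (M : ℕ) :
    Finset (EuclideanSpace ℝ (Fin (2 ^ k))) :=
  (range M ×ˢ (univ : Finset (((Fin k → Bool) × Bool) × ((Fin k → Bool) × Bool))).filter
    (fun p => p.1.1 ≠ p.2.1)).image (fun q => root (Fr d (2 * q.1)) q.2.1 q.2.2)

theorem mem_conf {d : ℕ → (Fin k → Bool) → Bool} {M : ℕ} {x : EuclideanSpace ℝ (Fin (2 ^ k))} :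
    x ∈ conf d M ↔ ∃ m, m < M ∧ ∃ a b : (Fin k → Bool) × Bool, a.1 ≠ b.1 ∧
      x = root (Fr d (2 * m)) a b := by
  unfold conf
  simp only [mem_image, mem_product, mem_range, mem_filter, mem_univ, true_and]
  constructor
  · rintro ⟨q, ⟨h1, h2⟩, rfl⟩
    exact ⟨q.1, h1, q.2.1, q.2.2, h2, rfl⟩
  · rintro ⟨m, h1, a, b, h2, rfl⟩
    exact ⟨(m, a, b), ⟨h1, h2⟩, rfl⟩

theorem conf_kissing (hk : 2 ≤ k) (d : ℕ → (Fin k → Bool) → Bool) (M : ℕ)
    (hd : ∀ i l, 4 ≤ l → i + l ≤ 2 * M → ∀ x y, |P d i l x y| ≤ 1 / 4) :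
    IsKissing (conf d M) := by
  have key : ∀ m r, m + r < M → ∀ a b c e : (Fin k → Bool) × Bool, a.1 ≠ b.1 → c.1 ≠ e.1 →
      root (Fr d (2 * m)) a b ≠ root (Fr d (2 * (m + r))) c e →
      inner ℝ (root (Fr d (2 * m)) a b) (root (Fr d (2 * (m + r))) c e) ≤ 1 / 2 := by
    intro m r hr a b c e hab hce hne
    have h1 : inner ℝ (root (Fr d (2 * m)) a b) (root (Fr d (2 * (m + r))) c e) ≤ 1 / 2 ∨
        inner ℝ (root (Fr d (2 * m)) a b) (root (Fr d (2 * (m + r))) c e) = 1 := by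
      rcases r with _ | _ | r
      · exact inner_root_zero d (2 * m) a b c e hab hce
      · exact inner_root_two hk d (2 * m) a b c e
      · left
        rw [Nat.mul_add]
        exact inner_root_far d _ _ (hd _ _ (by omega) (by omega)) a b c e
    rcases h1 with h1 | h1
    · exact h1
    · exact absurd ((inner_eq_one_iff_of_norm_eq_one (norm_root d _ a b hab)
        (norm_root d _ c e hce)).mp h1) hne
  refine ⟨fun x hx => ?_, fun x hx y hy hxy => ?_⟩
  · obtain ⟨m, -, a, b, hab, rfl⟩ := mem_conf.mp hx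
    exact norm_root d _ a b hab
  · obtain ⟨m, hm, a, b, hab, rfl⟩ := mem_conf.mp hx
    obtain ⟨m', hm', c, e, hce, rfl⟩ := mem_conf.mp hy
    rcases le_total m m' with h | h
    · obtain ⟨r, rfl⟩ := Nat.exists_eq_add_of_le h
      exact key m r hm' a b c e hab hce hxy
    · obtain ⟨r, rfl⟩ := Nat.exists_eq_add_of_le h
      rw [real_inner_comm]
      exact key m' r hm c e a b hce hab hxy.symm

theorem conf_jammed (hk : 2 ≤ k) (d : ℕ → (Fin k → Bool) → Bool) (M : ℕ) :
    IsJammed (conf d M) := by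
  intro γ hcont h0 hn hc t ht
  have hdim : Fintype.card (Fin k → Bool) =
      Module.finrank ℝ (EuclideanSpace ℝ (Fin (2 ^ k))) := by simp
  have h4 : 4 ≤ Fintype.card (Fin k → Bool) := by
    simp only [Fintype.card_fun, Fintype.card_bool, Fintype.card_fin]
    exact Nat.pow_le_pow_right (n := 2) (by norm_num) hk
  have hhne : hh ≠ 0 := hh_pos.ne'
  have hinv : hh⁻¹ * hh⁻¹ = 2 := by rw [← mul_inv, hh_mul]; norm_num
  have each : ∀ m, m < M → ∃ A : EuclideanSpace ℝ (Fin (2 ^ k)) ≃ₗᵢ[ℝ]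
      EuclideanSpace ℝ (Fin (2 ^ k)), ∀ a b : (Fin k → Bool) × Bool, a.1 ≠ b.1 →
        γ (root (Fr d (2 * m)) a b) t = A (root (Fr d (2 * m)) a b) := by
    intro m hm
    have hmem : ∀ a b : (Fin k → Bool) × Bool, a.1 ≠ b.1 → root (Fr d (2 * m)) a b ∈ conf d M :=
      fun a b hab => mem_conf.mpr ⟨m, hm, a, b, hab, rfl⟩
    obtain ⟨A, hA⟩ := motion_rigid hdim h4 (Fr d (2 * m)) (Fr_orth d _)
      (fun a b s => hh⁻¹ • γ (root (Fr d (2 * m)) a b) s)
      (fun a b => by rw [root_comm])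
      (fun a b hab => (hcont _ (hmem a b hab)).const_smul hh⁻¹)
      (fun a b hab => by
        rw [h0 _ (hmem a b hab), root, smul_smul, inv_mul_cancel₀ hhne, one_smul])
      (fun a b hab s hs => by
        rw [real_inner_smul_left, real_inner_smul_right, real_inner_self_eq_norm_sq,
          hn _ (hmem a b hab) s hs, ← mul_assoc, hinv]
        norm_num)
      (fun a b c hab hac hbc s hs => by
        rw [real_inner_smul_left, real_inner_smul_right, ← mul_assoc, hinv]
        have := hc _ (hmem a b hab) _ (hmem a c hac) (root_ne d _ a b c hab hac hbc) s hs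
        linarith) t ht
    refine ⟨A, fun a b hab => ?_⟩
    have h1 := hA a b hab
    conv_rhs => rw [root, map_smul, ← h1, smul_smul, mul_inv_cancel₀ hhne, one_smul]
  rcases M with _ | M
  · exact ⟨LinearIsometryEquiv.refl ℝ _, fun x hx => by
      obtain ⟨m, hm, -⟩ := mem_conf.mp hx
      omega⟩
  choose! A hA using each
  have hstep : ∀ m, m + 1 < M + 1 → A m = A (m + 1) := by
    intro m hm
    have : Nonempty (Fin k → Bool) := inferInstance
    refine (basisOfOrthonormalOfCardEqFinrank (Fr_orth d (2 * m + 1)) hdim).ext_linearIsometryEquiv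
      fun y => ?_
    rw [coe_basisOfOrthonormalOfCardEqFinrank]
    obtain ⟨a, b, hab, h1⟩ := Fr_succ d (2 * m) y
    obtain ⟨c, e, hce, h2⟩ := Fr_pred d (2 * m + 1) y
    have h3 := hA m (by omega) a b hab
    have h5 := hA (m + 1) hm c e hce
    rw [show 2 * (m + 1) = 2 * m + 1 + 1 by ring, ← h2] at h5
    rw [← h1] at h3
    rw [← h3, ← h5]
  have hall : ∀ m, m < M + 1 → A m = A 0 := by
    intro m
    induction m with
    | zero => intro _; rfl
    | succ m ih => intro hm; rw [← hstep m hm, ih (by omega)]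
  refine ⟨A 0, fun x hx => ?_⟩
  obtain ⟨m, hm, a, b, hab, rfl⟩ := mem_conf.mp hx
  rw [hA m hm a b hab, hall m hm]

theorem conf_card (d : ℕ → (Fin k → Bool) → Bool) (M : ℕ)
    (hd : ∀ i l, 4 ≤ l → i + l ≤ 2 * (2 * M) → ∀ x y, |P d i l x y| ≤ 1 / 4) :
    M ≤ (conf d (2 * M)).card := by
  let a : (Fin k → Bool) × Bool := (Function.update (fun _ => true) 0 false, true)
  let b : (Fin k → Bool) × Bool := (Function.update (fun _ => true) 0 true, true)
  have hab : a.1 ≠ b.1 := update_ne _ _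
  have key : ∀ m r, m + (r + 1) < M →
      root (Fr d (2 * (2 * m))) a b ≠ root (Fr d (2 * (2 * (m + (r + 1))))) a b := by
    intro m r hr h
    have h1 := inner_root_far d (2 * (2 * m)) (2 * (2 * (r + 1)))
      (hd _ _ (by omega) (by omega)) a b a b
    rw [← Nat.mul_add, ← Nat.mul_add, ← h, inner_root_self d _ a b hab] at h1
    norm_num at h1
  conv_lhs => rw [← card_range M]
  refine card_le_card_of_injOn (fun m => root (Fr d (2 * (2 * m))) a b) (fun m hm => ?_) ?_
  · have := mem_range.mp (mem_coe.mp hm)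
    exact mem_coe.mpr (mem_conf.mpr ⟨2 * m, by omega, a, b, hab, rfl⟩)
  · intro m hm m' hm' h
    have h1 := mem_range.mp (mem_coe.mp hm)
    have h2 := mem_range.mp (mem_coe.mp hm')
    rcases lt_trichotomy m m' with h3 | h3 | h3
    · obtain ⟨r, rfl⟩ := Nat.exists_eq_add_of_lt h3
      exact absurd h (key m r (by omega))
    · exact h3
    · obtain ⟨r, rfl⟩ := Nat.exists_eq_add_of_lt h3
      exact absurd h.symm (key m' r (by omega))

theorem main_pow (k : ℕ) (hk : 28 ≤ k) :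
    ∃ C : Finset (EuclideanSpace ℝ (Fin (2 ^ k))), IsKissing C ∧ IsJammed C ∧
      Real.exp (1 / 128) ^ (2 ^ k) ≤ (C.card : ℝ) := by
  have : NeZero k := ⟨by omega⟩
  set n : ℝ := (2 : ℝ) ^ k with hn
  have hn28 : (2 : ℝ) ^ 28 ≤ n := pow_le_pow_right₀ (by norm_num) hk
  let M : ℕ := ⌈Real.exp (n / 128)⌉₊
  have hM1 : Real.exp (n / 128) ≤ M := Nat.le_ceil _
  have hM2 : (M : ℝ) < Real.exp (n / 128) + 1 := Nat.ceil_lt_add_one (Real.exp_pos _).le
  have h1 : 1 ≤ Real.exp (n / 128) := Real.one_le_exp (by positivity)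
  obtain ⟨d, hd⟩ := exists_signs (k := k) (2 * (2 * M)) (by
    rw [← hn]
    push_cast
    have h2 : 2 * (2 * (M : ℝ)) + 1 ≤ 9 * Real.exp (n / 128) := by linarith
    have h3 : (2 * (2 * (M : ℝ)) + 1) ^ 2 ≤ (9 * Real.exp (n / 128)) ^ 2 :=
      pow_le_pow_left₀ (by positivity) h2 2
    have h4 : Real.exp (n / 128) ^ 2 = Real.exp (n / 64) := by
      rw [← Real.exp_nat_mul]; congr 1; push_cast; ring
    have h5 : Real.exp (n / 32) = Real.exp (n / 64) * Real.exp (n / 64) := by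
      rw [← Real.exp_add]; congr 1; ring
    have h6 := Real.pow_div_factorial_le_exp (n / 64) (by positivity) 3
    have h7 : 162 * n ^ 2 ≤ Real.exp (n / 64) := by
      refine le_trans ?_ h6
      rw [le_div_iff₀ (by positivity)]
      norm_num [Nat.factorial] at hn28 ⊢
      have h8 : 0 ≤ n ^ 2 := sq_nonneg n
      nlinarith
    rw [mul_pow, h4] at h3
    rw [h5]
    have h9 := Real.exp_pos (n / 64)
    calc 2 * (2 * (2 * (M : ℝ)) + 1) ^ 2 * n ^ 2 ≤ 2 * (9 ^ 2 * Real.exp (n / 64)) * n ^ 2 := by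
          gcongr
      _ = Real.exp (n / 64) * (162 * n ^ 2) := by ring
      _ ≤ Real.exp (n / 64) * Real.exp (n / 64) := by gcongr)
  refine ⟨conf d (2 * M), conf_kissing (by omega) d _ hd, conf_jammed (by omega) d _, ?_⟩
  have h2 : (M : ℝ) ≤ (conf d (2 * M)).card := by exact_mod_cast conf_card d M hd
  rw [← Real.exp_nat_mul]
  push_cast
  rw [← hn, show n * (1 / 128) = n / 128 by ring]
  exact hM1.trans h2

theorem main : ∃ c : ℝ, 1 < c ∧ {n : ℕ | ∃ C : Finset (EuclideanSpace ℝ (Fin n)),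
    IsKissing C ∧ IsJammed C ∧ c ^ n ≤ (C.card : ℝ)}.Infinite := by
  refine ⟨Real.exp (1 / 128), Real.one_lt_exp_iff.mpr (by norm_num), ?_⟩
  refine Set.infinite_of_injective_forall_mem (f := fun j : ℕ => 2 ^ (j + 28)) ?_ ?_
  · intro i j h
    have := Nat.pow_right_injective (le_refl 2) h
    omega
  · intro j
    exact main_pow (j + 28) (by omega)

end Pool.Agent.H29Z.Jam
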