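import Pool.Agent.H29Z.Jam.Rigid

/-!
# Butterfly products with signs
-/

set_option autoImplicit false

namespace Pool.Agent.H29Z.Jam

open Finset Matrix

/-- `1/√2` -/
noncomputable def hh : ℝ := (Real.sqrt 2)⁻¹

theorem hh_pos : 0 < hh := by unfold hh; positivity

theorem hh_mul : hh * hh = 1 / 2 := by
  unfold hh
  rw [← mul_inv, Real.mul_self_sqrt (by norm_num)]; norm_num

theorem hh_sq : hh ^ 2 = 1 / 2 := by rw [sq, hh_mul]

variable {k : ℕ}

/-- Hadamard gate on bit `s` -/
noncomputable def W (s : Fin k) : Matrix (Fin k → Bool) (Fin k → Bool) ℝ := fun x y =>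
  if (∀ u, u ≠ s → x u = y u) then sg (!(x s && y s)) * hh else 0

theorem W_symm (s : Fin k) (x y : Fin k → Bool) : W s x y = W s y x := by
  unfold W
  simp only [Bool.and_comm (x s), eq_comm (a := x _)]

theorem sum_W (s : Fin k) (f : (Fin k → Bool) → ℝ) (y : Fin k → Bool) :
    ∑ c, f c * W s c y =
      f (Function.update y s false) * hh + f (Function.update y s true) * (sg (!y s) * hh) := by
  have hne : Function.update y s false ≠ Function.update y s true := by
    intro h
    have := congrFun h s
    simp at this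
  rw [← sum_subset (subset_univ {Function.update y s false, Function.update y s true}),
    sum_pair hne]
  · congr 2
    · unfold W
      rw [if_pos (fun u hu => by simp [Function.update_of_ne hu])]
      simp
    · unfold W
      rw [if_pos (fun u hu => by simp [Function.update_of_ne hu])]
      simp
  · intro c _ hc
    unfold W
    rw [if_neg, mul_zero]
    intro h
    apply hc
    have : c = Function.update y s (c s) := by
      funext u
      by_cases hu : u = s
      · subst hu; simp
      · rw [Function.update_of_ne hu, h u hu]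
    rw [this]
    cases c s <;> simp

theorem W_mul_W (s : Fin k) : W s * W s = 1 := by
  ext x y
  rw [mul_apply, sum_W s (fun c => W s x c) y, one_apply]
  unfold W
  by_cases h : ∀ u, u ≠ s → x u = y u
  · rw [if_pos (fun u hu => by simp [Function.update_of_ne hu, h u hu]),
      if_pos (fun u hu => by simp [Function.update_of_ne hu, h u hu])]
    have h2 : x = y ↔ x s = y s := by
      constructor
      · rintro rfl; rfl
      · intro h3
        funext u
        by_cases hu : u = s
        · subst hu; exact h3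
        · exact h u hu
    simp only [h2, Function.update_self]
    have := hh_mul
    cases x s <;> cases y s <;> simp <;> linarith
  · rw [if_neg (fun h' => h fun u hu => by simpa [Function.update_of_ne hu] using h' u hu),
      if_neg (fun h' => h fun u hu => by simpa [Function.update_of_ne hu] using h' u hu),
      if_neg (fun h' => h fun u _ => by rw [h'])]
    simp

/-- one step: signs, then a Hadamard gate -/
noncomputable def B (d : (Fin k → Bool) → Bool) (s : Fin k) :
    Matrix (Fin k → Bool) (Fin k → Bool) ℝ := diagonal (fun x => sg (d x)) * W s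

theorem W_transpose (s : Fin k) : (W s)ᵀ = W s := by
  ext x y; rw [transpose_apply, W_symm]

theorem D_mul_D (d : (Fin k → Bool) → Bool) :
    diagonal (fun x => sg (d x)) * diagonal (fun x => sg (d x)) = 1 := by
  rw [diagonal_mul_diagonal]; simp

theorem B_orth (d : (Fin k → Bool) → Bool) (s : Fin k) : (B d s)ᵀ * B d s = 1 := by
  unfold B
  rw [transpose_mul, W_transpose, diagonal_transpose, Matrix.mul_assoc,
    ← Matrix.mul_assoc (diagonal _), D_mul_D, Matrix.one_mul, W_mul_W]

variable [NeZero k]

/-- product of `l` consecutive steps, starting with step `i` -/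
noncomputable def P (d : ℕ → (Fin k → Bool) → Bool) (i : ℕ) :
    ℕ → Matrix (Fin k → Bool) (Fin k → Bool) ℝ
  | 0 => 1
  | l + 1 => P d i l * B (d (i + l)) (Fin.ofNat k (i + l))

theorem P_orth (d : ℕ → (Fin k → Bool) → Bool) (i l : ℕ) : (P d i l)ᵀ * P d i l = 1 := by
  induction l with
  | zero => simp [P]
  | succ l ih =>
    rw [P, transpose_mul, Matrix.mul_assoc, ← Matrix.mul_assoc (P d i l)ᵀ, ih, Matrix.one_mul,
      B_orth]

theorem P_add (d : ℕ → (Fin k → Bool) → Bool) (i l m : ℕ) :
    P d i (l + m) = P d i l * P d (i + l) m := by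
  induction m with
  | zero => simp [P]
  | succ m ih => rw [← Nat.add_assoc, P, P, ih, Matrix.mul_assoc, Nat.add_assoc i l m]

theorem P_congr (d d' : ℕ → (Fin k → Bool) → Bool) (i l : ℕ)
    (h : ∀ s, i ≤ s → s < i + l → d s = d' s) : P d i l = P d' i l := by
  induction l with
  | zero => simp [P]
  | succ l ih =>
    rw [P, P, ih (fun s h1 h2 => h s h1 (by omega)), h (i + l) (by omega) (by omega)]

theorem P_succ_apply (d : ℕ → (Fin k → Bool) → Bool) (i l : ℕ) (x y : Fin k → Bool) :
    P d i (l + 1) x y =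
      P d i l x (Function.update y (Fin.ofNat k (i + l)) false) *
          sg (d (i + l) (Function.update y (Fin.ofNat k (i + l)) false)) * hh +
        P d i l x (Function.update y (Fin.ofNat k (i + l)) true) *
          sg (d (i + l) (Function.update y (Fin.ofNat k (i + l)) true)) *
            (sg (!y (Fin.ofNat k (i + l))) * hh) := by
  rw [P, B, ← Matrix.mul_assoc, mul_apply, sum_W]
  simp only [mul_diagonal]

theorem P_pred_apply (d : ℕ → (Fin k → Bool) → Bool) (i l : ℕ) (x y : Fin k → Bool) :
    P d i l x y = sg (d (i + l) y) *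
      (P d i (l + 1) x (Function.update y (Fin.ofNat k (i + l)) false) * hh +
        P d i (l + 1) x (Function.update y (Fin.ofNat k (i + l)) true) *
            (sg (!y (Fin.ofNat k (i + l))) * hh)) := by
  have h : P d i l = P d i (l + 1) * W (Fin.ofNat k (i + l)) *
      diagonal (fun x => sg (d (i + l) x)) := by
    rw [P, B, Matrix.mul_assoc (P d i l), Matrix.mul_assoc (diagonal _), W_mul_W, Matrix.mul_one,
      Matrix.mul_assoc, D_mul_D, Matrix.mul_one]
  conv_lhs => rw [h]
  rw [mul_diagonal, mul_apply, sum_W, mul_comm]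

/-- agreement outside the bits used by the steps `i, …, i + l - 1` -/
def Ag (i l : ℕ) (x y : Fin k → Bool) : Prop :=
  ∀ u, (∀ m, m < l → u ≠ Fin.ofNat k (i + m)) → x u = y u

theorem ofNat_ne {i m l : ℕ} (h1 : m < l) (h2 : l < k) :
    Fin.ofNat k (i + l) ≠ Fin.ofNat k (i + m) := by
  intro h
  have h3 : (i + l) % k = (i + m) % k := congrArg Fin.val h
  have h4 : k ∣ (i + l) - (i + m) := (Nat.modEq_iff_dvd' (by omega)).mp h3.symm
  have h5 := Nat.le_of_dvd (by omega) h4
  omega

theorem Ag_update {i l : ℕ} (hl : l < k) (x y : Fin k → Bool) (b : Bool) :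
    Ag i l x (Function.update y (Fin.ofNat k (i + l)) b) ↔
      x (Fin.ofNat k (i + l)) = b ∧ Ag i (l + 1) x y := by
  constructor
  · intro h
    refine ⟨?_, fun u hu => ?_⟩
    · simpa using h (Fin.ofNat k (i + l)) (fun m hm => ofNat_ne hm hl)
    · have := h u (fun m hm => hu m (by omega))
      rwa [Function.update_of_ne (hu l (by omega))] at this
  · rintro ⟨h1, h2⟩ u hu
    by_cases h : u = Fin.ofNat k (i + l)
    · subst h; simpa using h1
    · rw [Function.update_of_ne h]
      refine h2 u fun m hm => ?_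
      rcases Nat.lt_succ_iff_lt_or_eq.mp hm with h3 | h3
      · exact hu m h3
      · rw [h3]; exact h

open Classical in
theorem P_flat (d : ℕ → (Fin k → Bool) → Bool) (i l : ℕ) (hl : l ≤ k) (x y : Fin k → Bool) :
    |P d i l x y| = if Ag i l x y then hh ^ l else 0 := by
  induction l generalizing y with
  | zero =>
    have : Ag i 0 x y ↔ x = y := by
      constructor
      · intro h; funext u; exact h u (fun m hm => absurd hm (by omega))
      · rintro rfl u _; rfl
    simp only [P, this, one_apply]
    split_ifs <;> simp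
  | succ l ih =>
    rw [P_succ_apply]
    have h0 := ih (by omega) (Function.update y (Fin.ofNat k (i + l)) false)
    have h1 := ih (by omega) (Function.update y (Fin.ofNat k (i + l)) true)
    rw [Ag_update (by omega)] at h0 h1
    have hp := hh_pos
    by_cases hA : Ag i (l + 1) x y
    · rw [if_pos hA]
      cases hx : x (Fin.ofNat k (i + l))
      · rw [hx] at h0 h1
        simp only [hA, and_true, if_true, Bool.false_eq_true, if_false, abs_eq_zero] at h0 h1
        rw [h1, zero_mul, zero_mul, add_zero, abs_mul, abs_mul, h0, abs_sg, abs_of_pos hp]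
        ring
      · rw [hx] at h0 h1
        simp only [hA, and_true, if_true, Bool.true_eq_false, if_false, abs_eq_zero] at h0 h1
        rw [h0, zero_mul, zero_mul, zero_add, abs_mul, abs_mul, abs_mul, h1, abs_sg, abs_sg,
          abs_of_pos hp]
        ring
    · rw [if_neg hA]
      simp only [hA, and_false, if_false, abs_eq_zero] at h0 h1
      rw [h0, h1]; simp

theorem P_flat_le (d : ℕ → (Fin k → Bool) → Bool) (i l : ℕ) (hl : l ≤ k) (x y : Fin k → Bool) :
    |P d i l x y| ≤ hh ^ l := by
  rw [P_flat d i l hl]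
  split_ifs
  · exact le_rfl
  · exact (pow_pos hh_pos l).le

theorem exp_sum_sign {α : Type} [Fintype α] [DecidableEq α] (c : α → ℝ) :
    ∑ δ : α → Bool, Real.exp (∑ z, c z * sg (δ z)) ≤
      Fintype.card (α → Bool) * Real.exp ((∑ z, c z ^ 2) / 2) := by
  have h1 : ∑ δ : α → Bool, Real.exp (∑ z, c z * sg (δ z)) =
      ∏ z, ∑ b : Bool, Real.exp (c z * sg b) := by
    rw [prod_univ_sum, Fintype.piFinset_univ]
    exact sum_congr rfl fun δ _ => Real.exp_sum _ _
  have h2 : (Fintype.card (α → Bool) : ℝ) * Real.exp ((∑ z, c z ^ 2) / 2) =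
      ∏ z, 2 * Real.exp (c z ^ 2 / 2) := by
    rw [prod_mul_distrib, prod_const, ← Real.exp_sum, sum_div]
    simp
  rw [h1, h2]
  refine prod_le_prod (fun z _ => sum_nonneg fun _ _ => (Real.exp_pos _).le) fun z _ => ?_
  have := Real.cosh_le_exp_half_sq (c z)
  rw [Real.cosh_eq] at this
  simp only [Fintype.sum_bool, sg_true, sg_false, mul_one, mul_neg]
  linarith

theorem sum_update {α β : Type} [Fintype α] [DecidableEq α] [Fintype β] (t : α)
    (f : (α → β) → ℝ) :
    ∑ ω : α → β, ∑ b, f (Function.update ω t b) = Fintype.card β * ∑ ω, f ω := by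
  let e : (α → β) × β ≃ (α → β) × β :=
    { toFun := fun p => (Function.update p.1 t p.2, p.1 t)
      invFun := fun p => (Function.update p.1 t p.2, p.1 t)
      left_inv := fun p => by simp
      right_inv := fun p => by simp }
  have h1 := Equiv.sum_comp e (fun p => f p.1)
  rw [Fintype.sum_prod_type, Fintype.sum_prod_type] at h1
  simp only [e, Equiv.coe_fn_mk, sum_const, card_univ, nsmul_eq_mul] at h1
  rw [h1, mul_sum]

/-- extension of a finite sign sequence -/
def ext {N : ℕ} (ω : Fin N → (Fin k → Bool) → Bool) (s : ℕ) : (Fin k → Bool) → Bool :=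
  if h : s < N then ω ⟨s, h⟩ else fun _ => true

theorem mgf {N : ℕ} (i l : ℕ) (hl : k < l) (hN : i + l ≤ N) (x y : Fin k → Bool) (lam : ℝ) :
    ∑ ω : Fin N → (Fin k → Bool) → Bool, Real.exp (lam * P (ext ω) i l x y) ≤
      Fintype.card (Fin N → (Fin k → Bool) → Bool) * Real.exp (lam ^ 2 * (1 / 2) ^ k / 2) := by
  obtain ⟨r, rfl⟩ : ∃ r, l = k + 1 + r := ⟨l - (k + 1), by omega⟩
  let t : Fin N := ⟨i + k, by omega⟩
  have h1 := sum_update t
    (fun ω : Fin N → (Fin k → Bool) → Bool => Real.exp (lam * P (ext ω) i (k + 1 + r) x y))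
  have hc : (0 : ℝ) < Fintype.card ((Fin k → Bool) → Bool) := by
    exact_mod_cast Fintype.card_pos
  refine le_of_mul_le_mul_left ?_ hc
  rw [← h1]
  have h2 : ∀ ω : Fin N → (Fin k → Bool) → Bool,
      ∑ b, Real.exp (lam * P (ext (Function.update ω t b)) i (k + 1 + r) x y) ≤
        Fintype.card ((Fin k → Bool) → Bool) * Real.exp (lam ^ 2 * (1 / 2) ^ k / 2) := by
    intro ω
    let Y := W (Fin.ofNat k (i + k)) * P (ext ω) (i + (k + 1)) r
    let c : (Fin k → Bool) → ℝ := fun z => lam * (P (ext ω) i k x z * Y z y)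
    have h3 : ∀ b, lam * P (ext (Function.update ω t b)) i (k + 1 + r) x y =
        ∑ z, c z * sg (b z) := by
      intro b
      have e0 : ∀ s, s ≠ i + k → ext (Function.update ω t b) s = ext ω s := by
        intro s hs
        unfold ext
        split_ifs with h
        · rw [Function.update_of_ne]
          intro h'
          exact hs (congrArg Fin.val h')
        · rfl
      have e1 : ext (Function.update ω t b) (i + k) = b := by
        unfold ext
        rw [dif_pos (by omega)]
        exact Function.update_self t b ω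
      rw [P_add, P, e1, P_congr _ (ext ω) i k (fun s _ h => e0 s (by omega)),
        P_congr _ (ext ω) (i + (k + 1)) r (fun s h _ => e0 s (by omega)), B,
        Matrix.mul_assoc, Matrix.mul_assoc, mul_apply, mul_sum]
      refine sum_congr rfl fun z _ => ?_
      rw [diagonal_mul]
      simp only [c, Y]
      ring
    simp only [h3]
    refine (exp_sum_sign c).trans (mul_le_mul_of_nonneg_left ?_ hc.le)
    rw [Real.exp_le_exp]
    have h4 : ∑ z, Y z y ^ 2 = 1 := by
      have h5 : Yᵀ * Y = 1 := by
        simp only [Y]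
        rw [transpose_mul, W_transpose, Matrix.mul_assoc, ← Matrix.mul_assoc (W _), W_mul_W,
          Matrix.one_mul, P_orth]
      have h6 := congrFun (congrFun h5 y) y
      rw [mul_apply, one_apply_eq] at h6
      rw [← h6]
      exact sum_congr rfl fun z _ => by rw [transpose_apply, sq]
    have h7 : ∑ z, c z ^ 2 ≤ ∑ z, lam ^ 2 * (1 / 2) ^ k * Y z y ^ 2 := by
      refine sum_le_sum fun z _ => ?_
      have h8 : P (ext ω) i k x z ^ 2 ≤ (1 / 2) ^ k := by
        rw [← sq_abs, ← hh_sq, ← pow_mul, mul_comm 2 k, pow_mul]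
        exact pow_le_pow_left₀ (abs_nonneg _) (P_flat_le _ _ _ le_rfl _ _) 2
      simp only [c, mul_pow]
      rw [mul_assoc]
      exact mul_le_mul_of_nonneg_left (mul_le_mul_of_nonneg_right h8 (sq_nonneg _)) (sq_nonneg _)
    rw [← mul_sum, h4, mul_one] at h7
    linarith
  refine (sum_le_sum fun ω _ => h2 ω).trans ?_
  rw [sum_const, card_univ, nsmul_eq_mul]
  apply le_of_eq
  ring

theorem exists_signs (N : ℕ)
    (hN : 2 * ((N : ℝ) + 1) ^ 2 * ((2 : ℝ) ^ k) ^ 2 ≤ Real.exp ((2 : ℝ) ^ k / 32)) :
    ∃ d : ℕ → (Fin k → Bool) → Bool, ∀ i l, 4 ≤ l → i + l ≤ N → ∀ x y, |P d i l x y| ≤ 1 / 4 := by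
  set n : ℝ := (2 : ℝ) ^ k with hn
  have hn0 : 0 < n := by positivity
  let S : Finset ((ℕ × ℕ) × ((Fin k → Bool) × (Fin k → Bool)) × Bool) :=
    ((range (N + 1) ×ˢ range (N + 1)).filter (fun p => k < p.2 ∧ p.1 + p.2 ≤ N)) ×ˢ univ
  let Φ : (Fin N → (Fin k → Bool) → Bool) → ℝ := fun ω =>
    ∑ q ∈ S, Real.exp ((sg q.2.2 * (n / 4)) * P (ext ω) q.1.1 q.1.2 q.2.1.1 q.2.1.2)
  have hS : (S.card : ℝ) ≤ 2 * ((N : ℝ) + 1) ^ 2 * n ^ 2 := by
    have h1 := card_filter_le (range (N + 1) ×ˢ range (N + 1)) (fun p => k < p.2 ∧ p.1 + p.2 ≤ N)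
    rw [card_product, card_range] at h1
    have h2 : S.card ≤ (N + 1) * (N + 1) * (2 ^ k * 2 ^ k * 2) := by
      simp only [S, card_product, card_univ, Fintype.card_prod, Fintype.card_fun,
        Fintype.card_bool, Fintype.card_fin]
      exact Nat.mul_le_mul_right _ h1
    have h3 : (S.card : ℝ) ≤ (((N + 1) * (N + 1) * (2 ^ k * 2 ^ k * 2) : ℕ) : ℝ) := by
      exact_mod_cast h2
    push_cast at h3
    rw [← hn] at h3
    nlinarith
  have hsum : ∑ ω, Φ ω ≤ ∑ _ω : Fin N → (Fin k → Bool) → Bool, Real.exp (n / 16) := by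
    simp only [Φ]
    rw [sum_comm]
    have h1 : ∀ q ∈ S, ∑ ω : Fin N → (Fin k → Bool) → Bool,
        Real.exp ((sg q.2.2 * (n / 4)) * P (ext ω) q.1.1 q.1.2 q.2.1.1 q.2.1.2) ≤
        Fintype.card (Fin N → (Fin k → Bool) → Bool) * Real.exp (n / 32) := by
      intro q hq
      have h2 := (mem_filter.mp (mem_product.mp hq).1).2
      refine (mgf _ _ h2.1 h2.2 _ _ _).trans (le_of_eq ?_)
      congr 2
      rw [mul_pow, sq (sg _), sg_mul_self, one_div, inv_pow, ← hn]
      field_simp
      norm_num
    refine (sum_le_card_nsmul _ _ _ h1).trans ?_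
    rw [sum_const, card_univ, nsmul_eq_mul, nsmul_eq_mul, mul_left_comm]
    refine mul_le_mul_of_nonneg_left ?_ (by positivity)
    have h3 : Real.exp (n / 16) = Real.exp (n / 32) * Real.exp (n / 32) := by
      rw [← Real.exp_add]; congr 1; ring
    rw [h3]
    exact mul_le_mul_of_nonneg_right (hS.trans hN) (Real.exp_pos _).le
  obtain ⟨ω, -, hω⟩ := exists_le_of_sum_le univ_nonempty hsum
  refine ⟨ext ω, fun i l h4 hil x y => ?_⟩
  by_cases hl : l ≤ k
  · refine (P_flat_le _ _ _ hl _ _).trans ?_
    have h1 : hh ≤ 1 := by nlinarith [hh_mul, hh_pos]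
    refine (pow_le_pow_of_le_one hh_pos.le h1 h4).trans (le_of_eq ?_)
    rw [show (4 : ℕ) = 2 * 2 from rfl, pow_mul, hh_sq]; norm_num
  · have h1 : ∀ b : Bool, sg b * P (ext ω) i l x y ≤ 1 / 4 := by
      intro b
      have h2 : Real.exp ((sg b * (n / 4)) * P (ext ω) i l x y) ≤ Φ ω :=
        single_le_sum (f := fun q : (ℕ × ℕ) × ((Fin k → Bool) × (Fin k → Bool)) × Bool =>
          Real.exp ((sg q.2.2 * (n / 4)) * P (ext ω) q.1.1 q.1.2 q.2.1.1 q.2.1.2))
          (fun _ _ => (Real.exp_pos _).le) (a := ((i, l), (x, y), b))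
          (by
            simp only [S, mem_product, mem_filter, mem_range, mem_univ, and_true]
            omega)
      have h3 := Real.exp_le_exp.mp (h2.trans hω)
      have h5 : n / 4 * (sg b * P (ext ω) i l x y) ≤ n / 4 * (1 / 4) := by linarith
      exact le_of_mul_le_mul_left h5 (by positivity)
    have h6 := h1 true
    have h7 := h1 false
    simp only [sg_true, sg_false] at h6 h7
    rw [abs_le]
    constructor <;> linarith

end Pool.Agent.H29Z.Jam
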