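import Pool.Agent.H29Z.Jam.Lin

/-!
# The root system `D_n` (`n ≥ 4`) is jammed
-/

set_option autoImplicit false

namespace Pool.Agent.H29Z.Jam

open Finset

/-- sign of a Boolean -/
noncomputable def sg (b : Bool) : ℝ := if b then 1 else -1

@[simp] theorem sg_true : sg true = 1 := rfl
@[simp] theorem sg_false : sg false = -1 := rfl
@[simp] theorem sg_not (b : Bool) : sg (!b) = -sg b := by cases b <;> simp
@[simp] theorem sg_mul_self (b : Bool) : sg b * sg b = 1 := by cases b <;> simp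
theorem abs_sg (b : Bool) : |sg b| = 1 := by cases b <;> simp

variable {ι : Type} [Fintype ι] [DecidableEq ι]
variable {E : Type} [NormedAddCommGroup E] [InnerProductSpace ℝ E]

/-- signed frame vector -/
noncomputable def sv (G : ι → E) (a : ι × Bool) : E := sg a.2 • G a.1

omit [Fintype ι] [DecidableEq ι] in
theorem sv_ng (G : ι → E) (a : ι × Bool) : sv G (ng a) = -sv G a := by
  simp [sv, ng]

/-- the frame read off from a perturbed root system -/
noncomputable def fr (J : ι → ι) (Y : ι × Bool → ι × Bool → E) (i : ι) : E :=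
  (1 / 2 : ℝ) • (Y (i, true) (J i, true) + Y (i, true) (J i, false))

/-- the defect of a perturbed root -/
noncomputable def rho (J : ι → ι) (Y : ι × Bool → ι × Bool → E) (a b : ι × Bool) : E :=
  Y a b - sv (fr J Y) a - sv (fr J Y) b

/-- total defect -/
noncomputable def eps (J : ι → ι) (Y : ι × Bool → ι × Bool → E) : ℝ :=
  ∑ p ∈ (univ : Finset ((ι × Bool) × (ι × Bool))).filter (fun p => p.1.1 ≠ p.2.1),
    ‖rho J Y p.1 p.2‖ ^ 2

theorem rho_le_eps (J : ι → ι) (Y : ι × Bool → ι × Bool → E) (a b : ι × Bool) (h : a.1 ≠ b.1) :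
    ‖rho J Y a b‖ ^ 2 ≤ eps J Y := by
  unfold eps
  exact single_le_sum (f := fun p : (ι × Bool) × (ι × Bool) => ‖rho J Y p.1 p.2‖ ^ 2)
    (fun _ _ => sq_nonneg _) (a := (a, b)) (by simp [h])

theorem eps_nonneg (J : ι → ι) (Y : ι × Bool → ι × Bool → E) : 0 ≤ eps J Y :=
  sum_nonneg fun _ _ => sq_nonneg _

/-- standard inner product of signed indices -/
noncomputable def ip (a c : ι × Bool) : ℝ := if a.1 = c.1 then sg a.2 * sg c.2 else 0

theorem static_bound (h4 : 4 ≤ Fintype.card ι) (J : ι → ι) (hJ : ∀ i, J i ≠ i)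
    (Y : ι × Bool → ι × Bool → E) (hsym : ∀ a b, Y a b = Y b a)
    (hn : ∀ a b, a.1 ≠ b.1 → inner ℝ (Y a b) (Y a b) = 2)
    (hc : ∀ a b c, a.1 ≠ b.1 → a.1 ≠ c.1 → b.1 ≠ c.1 → inner ℝ (Y a b) (Y a c) ≤ 1) :
    (∀ i k, |inner ℝ (fr J Y i) (fr J Y k) - (if i = k then 1 else 0)| ≤ 93 * eps J Y) ∧
      ∀ a b k, a.1 ≠ b.1 → |inner ℝ (rho J Y a b) (fr J Y k)| ≤ 517 * eps J Y := by
  set G := fr J Y with hG
  set ε := eps J Y with hε
  let Mm : ι × Bool → ι × Bool → ℝ := fun a c => inner ℝ (sv G a) (sv G c) - ip a c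
  let T : ι × Bool → ι × Bool → ι × Bool → ℝ := fun a b c =>
    inner ℝ (rho J Y a b) (sv G c) + (Mm a c + Mm b c) / 2
  have hMs : ∀ a c, Mm a c = Mm c a := by
    intro a c
    simp only [Mm, ip, real_inner_comm (sv G a) (sv G c), eq_comm (a := a.1), mul_comm (sg a.2)]
  have hMo : ∀ a c, Mm a (ng c) = -Mm a c := by
    intro a c
    simp only [Mm, ip, sv_ng, inner_neg_right, ng_fst]
    simp only [ng, sg_not]
    split_ifs <;> ring
  have hrs : ∀ a b, rho J Y a b = rho J Y b a := by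
    intro a b
    simp only [rho, hsym a b]; abel
  have hY : ∀ a b, Y a b = sv G a + sv G b + rho J Y a b := by
    intro a b
    simp only [rho, hG]; abel
  have hipaa : ∀ a : ι × Bool, ip a a = 1 := by intro a; simp [ip]
  have hipab : ∀ a b : ι × Bool, a.1 ≠ b.1 → ip a b = 0 := by intro a b h; simp [ip, h]
  have hT := core_main T ε h4 (fun a b c => by simp only [T, hrs a b]; ring)
    (fun a b c => by simp only [T, hMo, sv_ng, inner_neg_right]; ring)
    (fun a b hab => by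
      have h1 := hn a b hab
      have h2 := rho_le_eps J Y a b hab
      rw [← real_inner_self_eq_norm_sq] at h2
      have h3 : 0 ≤ inner ℝ (rho J Y a b) (rho J Y a b) := real_inner_self_nonneg
      rw [hY a b] at h1
      simp only [inner_add_left, inner_add_right] at h1
      simp only [T, Mm, hipaa, hipab a b hab, hipab b a hab.symm]
      rw [real_inner_comm (rho J Y a b) (sv G a), real_inner_comm (rho J Y a b) (sv G b)] at h1
      rw [abs_le]
      constructor <;> linarith)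
    (fun a b c hab hac hbc => by
      have h1 := hc a b c hab hac hbc
      have h2 := rho_le_eps J Y a b hab
      have h2' := rho_le_eps J Y a c hac
      have h3 : 0 ≤ inner ℝ (rho J Y a b + rho J Y a c) (rho J Y a b + rho J Y a c) :=
        real_inner_self_nonneg
      rw [← real_inner_self_eq_norm_sq] at h2 h2'
      rw [hY a b, hY a c] at h1
      simp only [inner_add_left, inner_add_right] at h1 h3
      simp only [T, Mm, hipaa, hipab a b hab, hipab b a hab.symm, hipab a c hac,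
        hipab c a hac.symm, hipab b c hbc, hipab c b hbc.symm]
      rw [real_inner_comm (rho J Y a c) (sv G a), real_inner_comm (rho J Y a c) (sv G b)] at h1
      rw [real_inner_comm (rho J Y a b) (rho J Y a c)] at h3
      linarith [real_inner_comm (sv G a) (sv G c), real_inner_comm (sv G b) (sv G c),
        real_inner_comm (sv G b) (sv G a)])
    J hJ (fun i k => Mm (i, true) (k, true)) (fun i k => hMs _ _)
    (fun i k => by
      have e3 : ((J i, false) : ι × Bool) = ng (J i, true) := rfl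
      have e4 : Mm (J i, false) (k, true) = -Mm (J i, true) (k, true) := by
        rw [hMs, e3, hMo, hMs]
      have e5 : rho J Y (i, true) (J i, true) + rho J Y (i, true) (J i, false) = 0 := by
        simp only [rho, sv, fr, sg_true, sg_false]
        module
      have e6 : inner ℝ (rho J Y (i, true) (J i, true)) (sv G (k, true)) +
          inner ℝ (rho J Y (i, true) (J i, false)) (sv G (k, true)) = 0 := by
        rw [← inner_add_left, e5, inner_zero_left]
      simp only [T, e4]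
      linarith)
  obtain ⟨hM, hTb⟩ := hT
  have hMall : ∀ (a : ι × Bool) k, |Mm a (k, true)| ≤ 93 * ε := by
    rintro ⟨i, s⟩ k
    cases s
    · have e3 : ((i, false) : ι × Bool) = ng (i, true) := rfl
      rw [hMs, e3, hMo, hMs, abs_neg]; exact hM i k
    · exact hM i k
  refine ⟨fun i k => ?_, fun a b k hab => ?_⟩
  · have := hM i k
    simpa [Mm, sv, ip] using this
  · have e1 := abs_le.mp (hTb a b (k, true) hab)
    have e2 := abs_le.mp (hMall a k)
    have e3 := abs_le.mp (hMall b k)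
    have e4 : sv G (k, true) = G k := by simp [sv]
    simp only [T, e4] at e1
    rw [abs_le]
    constructor <;> linarith [e1.1, e1.2, e2.1, e2.2, e3.1, e3.2]

theorem frame_lower (G : ι → E) (η : ℝ)
    (hG : ∀ i k, |inner ℝ (G i) (G k) - (if i = k then 1 else 0)| ≤ η)
    (hη : (Fintype.card ι : ℝ) * η ≤ 1 / 2) (x : ι → ℝ) :
    ∑ i, x i ^ 2 ≤ 2 * ‖∑ i, x i • G i‖ ^ 2 := by
  have h0 : ‖∑ i, x i • G i‖ ^ 2 = ∑ i, ∑ k, x i * x k * inner ℝ (G i) (G k) := by
    rw [← real_inner_self_eq_norm_sq, sum_inner]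
    refine sum_congr rfl fun i _ => ?_
    rw [inner_sum]
    refine sum_congr rfl fun k _ => ?_
    rw [real_inner_smul_left, real_inner_smul_right]; ring
  have h1 : ∀ i k, (if i = k then x i ^ 2 else 0) - η * ((x i ^ 2 + x k ^ 2) / 2) ≤
      x i * x k * inner ℝ (G i) (G k) := by
    intro i k
    have e1 := hG i k
    have e2 : |x i * x k| ≤ (x i ^ 2 + x k ^ 2) / 2 := by
      rw [abs_le]; constructor <;> nlinarith [sq_nonneg (x i + x k), sq_nonneg (x i - x k)]
    have e3 : |x i * x k * (inner ℝ (G i) (G k) - (if i = k then 1 else 0))| ≤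
        (x i ^ 2 + x k ^ 2) / 2 * η := by
      rw [abs_mul]
      exact mul_le_mul e2 e1 (abs_nonneg _) (by positivity)
    have e4 := (abs_le.mp e3).1
    split_ifs at e4 ⊢ with h
    · subst h; nlinarith
    · nlinarith
  have h2 : ∑ i, ∑ k, ((if i = k then x i ^ 2 else 0) - η * ((x i ^ 2 + x k ^ 2) / 2)) =
      (1 - Fintype.card ι * η) * ∑ i, x i ^ 2 := by
    simp only [sum_sub_distrib, sum_ite_eq, mem_univ, if_true, ← mul_sum, ← sum_div,
      sum_add_distrib, sum_const, card_univ, nsmul_eq_mul]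
    ring
  have h3 : ∑ i, ∑ k, ((if i = k then x i ^ 2 else 0) - η * ((x i ^ 2 + x k ^ 2) / 2)) ≤
      ∑ i, ∑ k, x i * x k * inner ℝ (G i) (G k) :=
    sum_le_sum fun i _ => sum_le_sum fun k _ => h1 i k
  have h4 : 0 ≤ ∑ i, x i ^ 2 := sum_nonneg fun _ _ => sq_nonneg _
  rw [h0]
  nlinarith

theorem small_of_frame [FiniteDimensional ℝ E] (hdim : Fintype.card ι = Module.finrank ℝ E)
    (G : ι → E) (η : ℝ)
    (hG : ∀ i k, |inner ℝ (G i) (G k) - (if i = k then 1 else 0)| ≤ η)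
    (hη : (Fintype.card ι : ℝ) * η ≤ 1 / 2) (r : E) (κ : ℝ)
    (hr : ∀ k, |inner ℝ r (G k)| ≤ κ) : ‖r‖ ^ 2 ≤ 2 * Fintype.card ι * κ ^ 2 := by
  have hli : LinearIndependent ℝ G := by
    rw [Fintype.linearIndependent_iff]
    intro x hx i
    have h1 := frame_lower G η hG hη x
    rw [hx, norm_zero] at h1
    have h2 : x i ^ 2 ≤ ∑ i, x i ^ 2 :=
      single_le_sum (f := fun i => x i ^ 2) (fun _ _ => sq_nonneg _) (mem_univ i)
    nlinarith [sq_nonneg (x i)]
  have hsp : Submodule.span ℝ (Set.range G) = ⊤ := hli.span_eq_top_of_card_eq_finrank' hdim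
  obtain ⟨x, hx⟩ := (Submodule.mem_span_range_iff_exists_fun ℝ).mp
    (show r ∈ Submodule.span ℝ (Set.range G) by rw [hsp]; trivial)
  have h1 := frame_lower G η hG hη x
  rw [hx] at h1
  have h2 : ‖r‖ ^ 2 = ∑ i, x i * inner ℝ r (G i) := by
    rw [← real_inner_self_eq_norm_sq]
    conv_lhs => rw [← hx]
    rw [inner_sum]
    refine sum_congr rfl fun i _ => ?_
    rw [real_inner_smul_right, hx]
  have h3 : (∑ i, x i * inner ℝ r (G i)) ^ 2 ≤ (∑ i, x i ^ 2) * ∑ i, inner ℝ r (G i) ^ 2 :=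
    sum_mul_sq_le_sq_mul_sq _ _ _
  have h4 : ∑ i, inner ℝ r (G i) ^ 2 ≤ Fintype.card ι * κ ^ 2 := by
    have : ∀ i ∈ (univ : Finset ι), inner ℝ r (G i) ^ 2 ≤ κ ^ 2 := by
      intro i _
      rw [← sq_abs]
      exact pow_le_pow_left₀ (abs_nonneg _) (hr i) 2
    simpa using sum_le_card_nsmul _ _ _ this
  rw [← h2] at h3
  have h5 : 0 ≤ ∑ i, inner ℝ r (G i) ^ 2 := sum_nonneg fun _ _ => sq_nonneg _
  have h6 : (‖r‖ ^ 2) ^ 2 ≤ (2 * ‖r‖ ^ 2) * (Fintype.card ι * κ ^ 2) :=
    h3.trans (mul_le_mul h1 h4 h5 (by positivity))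
  by_cases h7 : ‖r‖ ^ 2 = 0
  · rw [h7]; positivity
  · have h8 : 0 < ‖r‖ ^ 2 := lt_of_le_of_ne (sq_nonneg _) (Ne.symm h7)
    nlinarith

/-- the gap constant -/
noncomputable def gap (n : ℕ) : ℝ := 1 / (8 * (n : ℝ) ^ 3 * 517 ^ 2 + 1)

theorem gap_pos (n : ℕ) : 0 < gap n := by unfold gap; positivity

theorem static_gap [FiniteDimensional ℝ E] (hdim : Fintype.card ι = Module.finrank ℝ E)
    (h4 : 4 ≤ Fintype.card ι) (J : ι → ι) (hJ : ∀ i, J i ≠ i)
    (Y : ι × Bool → ι × Bool → E) (hsym : ∀ a b, Y a b = Y b a)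
    (hn : ∀ a b, a.1 ≠ b.1 → inner ℝ (Y a b) (Y a b) = 2)
    (hc : ∀ a b c, a.1 ≠ b.1 → a.1 ≠ c.1 → b.1 ≠ c.1 → inner ℝ (Y a b) (Y a c) ≤ 1)
    (hlt : eps J Y ≤ gap (Fintype.card ι)) : eps J Y = 0 := by
  obtain ⟨h1, h2⟩ := static_bound h4 J hJ Y hsym hn hc
  set n : ℝ := (Fintype.card ι : ℝ) with hn'
  have hn4 : (4 : ℝ) ≤ n := by rw [hn']; exact_mod_cast h4
  have he0 := eps_nonneg J Y
  set ε := eps J Y with hε
  have hlt' : ε * (8 * n ^ 3 * 517 ^ 2 + 1) ≤ 1 := by
    unfold gap at hlt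
    rwa [le_div_iff₀ (by positivity)] at hlt
  have hn3 : n ≤ n ^ 3 := by nlinarith [mul_pos (show (0 : ℝ) < n by linarith) (show (0 : ℝ) < n by linarith)]
  have hη : n * (93 * ε) ≤ 1 / 2 := by nlinarith [mul_le_mul_of_nonneg_left hn3 he0]
  have h3 : ∀ p ∈ (univ : Finset ((ι × Bool) × (ι × Bool))).filter (fun p => p.1.1 ≠ p.2.1),
      ‖rho J Y p.1 p.2‖ ^ 2 ≤ 2 * n * (517 * ε) ^ 2 := by
    intro p hp
    exact small_of_frame hdim (fr J Y) (93 * ε) h1 hη _ _
      (fun k => h2 p.1 p.2 k (mem_filter.mp hp).2)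
  have h5 := sum_le_card_nsmul _ _ _ h3
  have h6 : (((univ : Finset ((ι × Bool) × (ι × Bool))).filter
      (fun p => p.1.1 ≠ p.2.1)).card : ℝ) ≤ 4 * n ^ 2 := by
    have := card_filter_le (univ : Finset ((ι × Bool) × (ι × Bool))) (fun p => p.1.1 ≠ p.2.1)
    rw [card_univ, Fintype.card_prod, Fintype.card_prod, Fintype.card_bool] at this
    have h' : (((univ : Finset ((ι × Bool) × (ι × Bool))).filter
      (fun p => p.1.1 ≠ p.2.1)).card : ℝ) ≤ ((Fintype.card ι * 2 * (Fintype.card ι * 2) : ℕ) : ℝ) := by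
      exact_mod_cast this
    push_cast at h'
    nlinarith
  rw [nsmul_eq_mul] at h5
  have h7 : ε ≤ 4 * n ^ 2 * (2 * n * (517 * ε) ^ 2) :=
    le_trans h5 (mul_le_mul_of_nonneg_right h6 (by positivity))
  by_contra hne
  have hpos : 0 < ε := lt_of_le_of_ne he0 (Ne.symm hne)
  have h8 : 1 ≤ 8 * n ^ 3 * 517 ^ 2 * ε := by
    have : ε * 1 ≤ ε * (8 * n ^ 3 * 517 ^ 2 * ε) := by nlinarith
    exact le_of_mul_le_mul_left this hpos
  nlinarith

/-- `D_n` is jammed: version for a motion of the (unnormalised) roots. -/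
theorem motion_rigid [FiniteDimensional ℝ E] (hdim : Fintype.card ι = Module.finrank ℝ E)
    (h4 : 4 ≤ Fintype.card ι) (F : ι → E) (hF : Orthonormal ℝ F)
    (Y : ι × Bool → ι × Bool → ℝ → E) (hsym : ∀ a b, Y a b = Y b a)
    (hcont : ∀ a b, a.1 ≠ b.1 → ContinuousOn (Y a b) (Set.Icc 0 1))
    (h0 : ∀ a b, a.1 ≠ b.1 → Y a b 0 = sv F a + sv F b)
    (hn : ∀ a b, a.1 ≠ b.1 → ∀ t ∈ Set.Icc (0 : ℝ) 1, inner ℝ (Y a b t) (Y a b t) = 2)
    (hc : ∀ a b c, a.1 ≠ b.1 → a.1 ≠ c.1 → b.1 ≠ c.1 → ∀ t ∈ Set.Icc (0 : ℝ) 1,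
      inner ℝ (Y a b t) (Y a c t) ≤ 1) (t : ℝ) (ht : t ∈ Set.Icc (0 : ℝ) 1) :
    ∃ A : E ≃ₗᵢ[ℝ] E, ∀ a b, a.1 ≠ b.1 → Y a b t = A (sv F a + sv F b) := by
  have hJ : ∀ i : ι, ∃ j, j ≠ i := fun i => by
    obtain ⟨w, hw, -⟩ := ex3 h4 i i i
    exact ⟨w, hw⟩
  choose J hJ using hJ
  have : Nonempty ι := Fintype.card_pos_iff.mp (by omega)
  let e : ℝ → ℝ := fun s => eps J (fun a b => Y a b s)
  have hfr : ∀ i, ContinuousOn (fun s => fr J (fun a b => Y a b s) i) (Set.Icc 0 1) := by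
    intro i
    unfold fr
    exact ((hcont _ _ (hJ i).symm).add (hcont _ _ (hJ i).symm)).const_smul _
  have hec : ContinuousOn e (Set.Icc 0 1) := by
    refine continuousOn_finsetSum _ fun p hp => ?_
    refine ContinuousOn.pow (ContinuousOn.norm ?_) 2
    unfold rho sv
    exact ((hcont _ _ (mem_filter.mp hp).2).sub ((hfr _).const_smul _)).sub ((hfr _).const_smul _)
  have hfr0 : fr J (fun a b => Y a b 0) = F := by
    funext i
    unfold fr
    simp only [h0 (i, true) (J i, true) (hJ i).symm, h0 (i, true) (J i, false) (hJ i).symm]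
    simp only [sv, sg_true, sg_false]
    module
  have he0 : e 0 = 0 := by
    refine sum_eq_zero fun p hp => ?_
    unfold rho
    rw [hfr0]
    simp only [h0 _ _ (mem_filter.mp hp).2]
    simp
  have hgap : ∀ s ∈ Set.Icc (0 : ℝ) 1, e s ≤ gap (Fintype.card ι) → e s = 0 := fun s hs h =>
    static_gap hdim h4 J hJ _ (fun a b => by rw [hsym a b]) (fun a b hab => hn a b hab s hs)
      (fun a b c h1 h2 h3 => hc a b c h1 h2 h3 s hs) h
  have het : e t = 0 := by
    by_contra hne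
    have h1 : gap (Fintype.card ι) < e t := by
      by_contra h2
      exact hne (hgap t ht (not_lt.mp h2))
    have h2 := intermediate_value_Icc ht.1 (hec.mono (Set.Icc_subset_Icc le_rfl ht.2))
    have h3 : gap (Fintype.card ι) ∈ Set.Icc (e 0) (e t) := by
      rw [he0]; exact ⟨(gap_pos _).le, h1.le⟩
    obtain ⟨s, hs, hs'⟩ := h2 h3
    have h4' := hgap s ⟨hs.1, hs.2.trans ht.2⟩ hs'.le
    have := gap_pos (Fintype.card ι)
    linarith
  obtain ⟨h1, -⟩ := static_bound h4 J hJ (fun a b => Y a b t) (fun a b => by rw [hsym a b])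
    (fun a b hab => hn a b hab t ht) (fun a b c h1 h2 h3 => hc a b c h1 h2 h3 t ht)
  have het' : eps J (fun a b => Y a b t) = 0 := het
  rw [het'] at h1
  set G := fr J (fun a b => Y a b t) with hG
  have hGo : Orthonormal ℝ G := by
    rw [orthonormal_iff_ite]
    intro i k
    have := h1 i k
    rw [mul_zero, abs_nonpos_iff, sub_eq_zero] at this
    exact this
  have hFb : Orthonormal ℝ (basisOfOrthonormalOfCardEqFinrank hF hdim) := by
    rw [coe_basisOfOrthonormalOfCardEqFinrank]; exact hF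
  have hGb : Orthonormal ℝ (basisOfOrthonormalOfCardEqFinrank hGo hdim) := by
    rw [coe_basisOfOrthonormalOfCardEqFinrank]; exact hGo
  refine ⟨hFb.equiv hGb (Equiv.refl ι), fun a b hab => ?_⟩
  have hA : ∀ i, hFb.equiv hGb (Equiv.refl ι) (F i) = G i := by
    intro i
    have := Orthonormal.equiv_apply hFb hGb (Equiv.refl ι) i
    simpa [coe_basisOfOrthonormalOfCardEqFinrank] using this
  have h2 := rho_le_eps J (fun a b => Y a b t) a b hab
  rw [het'] at h2
  have h3 : rho J (fun a b => Y a b t) a b = 0 := by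
    have : ‖rho J (fun a b => Y a b t) a b‖ ^ 2 = 0 := le_antisymm h2 (sq_nonneg _)
    simpa using this
  simp only [sv, map_add, map_smul, hA]
  unfold rho at h3
  simp only [sv] at h3
  rw [← hG] at h3
  rw [← sub_eq_zero, ← h3]
  abel

end Pool.Agent.H29Z.Jam
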